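import Pool.Agent.ZTO.Stmts

/-!
# MP_c4a8aa_al, ZTO, row NIL (helper44)
-/

set_option autoImplicit false

open scoped BigOperators

namespace Pool.Agent.ZTO.H44

open Pool.Agent.ZTO

section

variable {G : Type} [Group G] {p : ℕ} {ψ : G →* G} {V : Type} [AddCommGroup V]
  {F : ℕ → AddSubgroup V} {t : V →+ V} {ρ : G →* AddMonoid.End V} {x : V} {c : ℕ → V → ZMod p}

theorem anti_add (hF : Fil p ψ F t ρ x) (j k : ℕ) : F (j + k) ≤ F j := by
  induction k with
  | zero => exact le_rfl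
  | succ k ih => exact (hF.anti (j + k)).trans ih

theorem iter_mem (hF : Fil p ψ F t ρ x) (j : ℕ) : (⇑t)^[j] x ∈ F j := by
  induction j with
  | zero =>
    rw [hF.top]
    exact AddSubgroup.mem_top _
  | succ j ih =>
    rw [Function.iterate_succ_apply']
    exact (hF.tf j _).mpr ih

theorem smul_iter (hpx : p • x = 0) (t : V →+ V) (j : ℕ) : p • (⇑t)^[j] x = 0 := by
  induction j with
  | zero => exact hpx
  | succ j ih =>
    rw [Function.iterate_succ_apply', ← map_nsmul, ih, map_zero]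

theorem smul_zero_all (hF : Fil p ψ F t ρ x) (hpx : p • x = 0) (v : V) : p • v = 0 := by
  apply hF.sep
  intro L
  have key : ∀ L : ℕ, ∃ w ∈ F L, p • v = p • w := by
    intro L
    induction L with
    | zero =>
      refine ⟨v, ?_, rfl⟩
      rw [hF.top]
      exact AddSubgroup.mem_top _
    | succ L ih =>
      obtain ⟨w, hw, he⟩ := ih
      obtain ⟨r, hr⟩ := hF.gen L w hw
      refine ⟨_, hr, ?_⟩
      rw [he, nsmul_sub, smul_comm, smul_iter hpx t L, nsmul_zero, sub_zero]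
  obtain ⟨w, hw, he⟩ := key L
  rw [he]
  exact (F L).nsmul_mem hw p

theorem coef_zero (hc : Cof p F t x c) (j : ℕ) : c j 0 = 0 :=
  (hc.ker j 0 (F j).zero_mem).mpr (F (j + 1)).zero_mem

theorem lead_pow (hF : Fil p ψ F t ρ x) (hc : Cof p F t x c) {g : G} {b : ℕ} {D : ℕ → ZMod p}
    (hb : 1 ≤ b) (hL : Lead F ρ c g b D) (i : ℕ) :
    Lead F ρ c (g ^ i) b (fun j => (i : ZMod p) * D j) := by
  induction i with
  | zero =>
    intro j v _
    have e : ρ (g ^ 0) v - v = 0 := by
      rw [pow_zero, map_one]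
      exact sub_self v
    rw [e]
    refine ⟨(F _).zero_mem, ?_⟩
    rw [coef_zero hc]
    simp
  | succ i ih =>
    intro j v hv
    have hgv : ρ g v ∈ F j := hF.act g j v hv
    obtain ⟨h1, h2⟩ := ih j _ hgv
    obtain ⟨h3, h4⟩ := hL j v hv
    have e : ρ (g ^ (i + 1)) v - v = (ρ (g ^ i) (ρ g v) - ρ g v) + (ρ g v - v) := by
      rw [pow_succ, map_mul]
      have : (ρ (g ^ i) * ρ g) v = ρ (g ^ i) (ρ g v) := rfl
      rw [this]
      abel
    have hcg : c j (ρ g v) = c j v := by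
      have h5 : ρ g v - v ∈ F (j + 1) := by
        obtain ⟨b', rfl⟩ : ∃ b', b = 1 + b' := ⟨b - 1, by omega⟩
        rw [← add_assoc] at h3
        exact anti_add hF (j + 1) b' h3
      have h6 : ρ g v - v ∈ F j := hF.anti j h5
      have h7 := hc.add j v hv (ρ g v - v) h6
      rw [(hc.ker j _ h6).mpr h5, add_zero, add_sub_cancel] at h7
      exact h7
    rw [e]
    refine ⟨(F _).add_mem h1 h3, ?_⟩
    rw [hc.add _ _ h1 _ h3, h2, h4, hcg]
    push_cast
    ring

theorem lead_iter (hc : Cof p F t x c) {h : G} {b : ℕ} {D : ℕ → ZMod p}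
    (hL : Lead F ρ c h b D) (m : ℕ) (j : ℕ) (v : V) (hv : v ∈ F j) :
    ((ρ h - 1) ^ m : AddMonoid.End V) v ∈ F (j + m * b) ∧
      c (j + m * b) (((ρ h - 1) ^ m : AddMonoid.End V) v)
        = (∏ l ∈ Finset.range m, D (j + l * b)) * c j v := by
  induction m with
  | zero =>
    simp only [pow_zero, zero_mul, add_zero, Finset.range_zero, Finset.prod_empty, one_mul]
    exact ⟨hv, rfl⟩
  | succ m ih =>
    obtain ⟨h1, h2⟩ := ih
    obtain ⟨h3, h4⟩ := hL _ _ h1
    have e : ((ρ h - 1) ^ (m + 1) : AddMonoid.End V) v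
        = ρ h (((ρ h - 1) ^ m : AddMonoid.End V) v) - ((ρ h - 1) ^ m : AddMonoid.End V) v := by
      rw [pow_succ']
      rfl
    have ej : j + (m + 1) * b = j + m * b + b := by ring
    rw [e, ej]
    refine ⟨h3, ?_⟩
    rw [h4, h2, Finset.prod_range_succ]
    ring

end

theorem nil : Pool.Agent.ZTO.NilStmt := by
  intro G _ p ψ V _ F t ρ x c hp hF hc hpx g b D hb hfin hL
  haveI : Fact p.Prime := ⟨hp⟩
  obtain ⟨N, hN, hgN⟩ := hfin.exists_pow_eq_one
  obtain ⟨r, q, hq, hNe⟩ := Nat.exists_eq_pow_mul_and_not_dvd (ne_of_gt hN) p hp.ne_one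
  have hhp : (g ^ q) ^ (p ^ r) = 1 := by
    rw [← pow_mul, mul_comm, ← hNe]
    exact hgN
  have hLq := lead_pow hF hc hb hL q
  -- characteristic `p`
  have hx0 : x ≠ 0 := by
    intro h0
    exact hF.out (h0 ▸ (F 1).zero_mem)
  haveI : Nontrivial (AddMonoid.End V) := by
    refine ⟨⟨1, 0, ?_⟩⟩
    intro h
    apply hx0
    have := DFunLike.congr_fun h x
    exact this
  haveI : CharP (AddMonoid.End V) p := by
    rw [CharP.charP_iff_prime_eq_zero hp]
    ext v
    have := smul_zero_all hF hpx v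
    rw [AddMonoid.End.natCast_apply]
    exact this
  have hzero : ((ρ (g ^ q) - 1) ^ (p ^ r) : AddMonoid.End V) = 0 := by
    rw [sub_pow_char_pow_of_commute _ _ (Commute.one_right _), one_pow, ← map_pow, hhp, map_one,
      sub_self]
  refine ⟨p ^ r, fun j => ?_⟩
  obtain ⟨-, h2⟩ := lead_iter hc hLq (p ^ r) j _ (iter_mem hF j)
  rw [hzero] at h2
  have h3 : ((0 : AddMonoid.End V)) ((⇑t)^[j] x) = 0 := rfl
  rw [h3, coef_zero hc, hc.one j, mul_one, Finset.prod_mul_distrib, Finset.prod_const,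
    Finset.card_range] at h2
  have hq0 : (q : ZMod p) ≠ 0 := by
    intro h
    exact hq ((ZMod.natCast_eq_zero_iff q p).mp h)
  rcases mul_eq_zero.mp h2.symm with h4 | h4
  · exact absurd h4 (pow_ne_zero _ hq0)
  · exact h4

end Pool.Agent.ZTO.H44
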